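import Pool.Agent.W422.GC.Up
import Pool.Agent.W425.SI.Final2

set_option autoImplicit false

/-! Ideals generated by polynomials with very general coefficients at the vertices: all `b ∈ ℂ[s]`,
with volumes defined by Lebesgue measure. -/

namespace Pool.Agent.W425.SU

open MvPolynomial Pool.Agent.H628R4.TZ Pool.Agent.H628R4.TP Pool.Agent.W425.SM Pool.Agent.W425.SI
open Pool.Agent.W422.GC (topZetaG)

variable {r k N : ℕ}

/-- The topological zeta function of the ideal: `Z_I(s) = (s + 1) Z_g(s)`, where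
`g = ∑_i y_i f_i`. -/
noncomputable def topZetaI (π : Fin r → Fin k) (w : Fin r → Fin N → ℕ)
    (R : SmoothFan (k + N)) : RatFunc ℂ :=
  (RatFunc.X + 1) * topZetaG (cay π w) R

open Polynomial in
/-- The theorem for ideals, with arbitrary coefficients besides those at the vertices, for every
`b ∈ ℂ[s]`. -/
theorem finalIdealC {F : Type} [Field F] [Algebra F ℂ] (hr : 1 ≤ r) (π : Fin r → Fin k)
    (w : Fin r → Fin N → ℕ) (a : Fin r → ℂ) (hw : Function.Injective fun j => (π j, w j))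
    (ha : AlgebraicIndependent F a) (h : Fin k → MvPolynomial (Fin N) F)
    (hh : ∀ i, ∀ u ∈ (h i).support, HullAt π w i u)
    (f : Fin k → MvPolynomial (Fin N) ℂ) (c : Fin k → ℂ) (t : Fin N → ℂ) (hc : ∀ i, c i ≠ 0)
    (ht : ∀ l, t l ≠ 0)
    (hf : ∀ i, MvPolynomial.C (c i) *
      MvPolynomial.aeval (fun l => MvPolynomial.C (t l) * MvPolynomial.X l) (f i) =
      gens π w a i + MvPolynomial.map (algebraMap F ℂ) (h i))
    (R : SmoothFan (k + N)) (hR : Principal (cay π w) R) (b : ℂ[X])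
    (hb : Pool.Agent.W574.SM.IsFunctionalEq f b) :
    ∃ P : ℂ[X], algebraMap ℂ[X] (RatFunc ℂ) b * topZetaI π w R =
      algebraMap ℂ[X] (RatFunc ℂ) P := by
  have h1 := Pool.Agent.W366.SI.taskI1 f _ hb
  have h2 := Pool.Agent.W578.SI.taskI2.1 (finSumFinEquiv : Fin k ⊕ Fin N ≃ Fin (k + N)) _ _ h1
  have h3 := Pool.Agent.W578.SI.taskI2.2.1 _ _ 1 (Fin.append c t) one_ne_zero (fun m => by
    refine Fin.addCases (fun i => ?_) (fun l => ?_) m
    · simpa using hc i
    · simpa using ht l) h2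
  rw [scale_univ, funext hf, univ_add, map_add, rename_univ, rename_univ_map] at h3
  obtain ⟨P, hP⟩ := Pool.Agent.W422.GC.finalGlobalC hr (cay π w) a (cay_inj hw) (cay_ne_zero π w)
    ha (cayH h) (cayH_hull π w h hh) R hR _ h3
  refine ⟨P, ?_⟩
  rw [← hP, map_mul, topZetaI]
  have h5 : algebraMap ℂ[X] (RatFunc ℂ) (Polynomial.X + 1) = RatFunc.X + 1 := by
    rw [map_add, map_one, RatFunc.algebraMap_X]
  rw [h5]
  ring

open Polynomial in
/-- The global theorem, after a diagonal change of variables. -/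
theorem finalGlobalS {F : Type} [Field F] [Algebra F ℂ]
    (hr : 1 ≤ r) (v : Fin r → Fin N → ℕ) (a : Fin r → ℂ)
    (hv : Function.Injective v) (hv0 : ∀ j, v j ≠ 0) (ha : AlgebraicIndependent F a)
    (h : MvPolynomial (Fin N) F) (hh : ∀ w ∈ h.support, Pool.Agent.W425.SV.Hull v w)
    (f : MvPolynomial (Fin N) ℂ) (c : ℂ) (t : Fin N → ℂ) (hc : c ≠ 0) (ht : ∀ l, t l ≠ 0)
    (hf : MvPolynomial.C c * MvPolynomial.aeval (fun l => MvPolynomial.C (t l) * MvPolynomial.X l) f
      = sparse v a + MvPolynomial.map (algebraMap F ℂ) h)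
    (R : SmoothFan N) (hR : Principal v R) (b : ℂ[X]) (hb : IsBFunction f b) :
    ∃ P : ℂ[X], algebraMap ℂ[X] (RatFunc ℂ) b * topZetaG v R =
      algebraMap ℂ[X] (RatFunc ℂ) P :=
  Pool.Agent.W422.GC.finalGlobalC hr v a hv hv0 ha h hh R hR b
    (hf ▸ Pool.Agent.W578.SI.taskI2.2.1 f b c t hc ht hb)

open Polynomial in
/-- The local theorem, after a diagonal change of variables. -/
theorem finalLocalS {F : Type} [Field F] [Algebra F ℂ]
    (hr : 1 ≤ r) (v : Fin r → Fin N → ℕ) (a : Fin r → ℂ)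
    (hv : Function.Injective v) (hv0 : ∀ j, v j ≠ 0) (ha : AlgebraicIndependent F a)
    (h : MvPolynomial (Fin N) F) (hh : ∀ w ∈ h.support, Pool.Agent.W425.SV.NP v w)
    (f : MvPolynomial (Fin N) ℂ) (c : ℂ) (t : Fin N → ℂ) (hc : c ≠ 0) (ht : ∀ l, t l ≠ 0)
    (hf : MvPolynomial.C c * MvPolynomial.aeval (fun l => MvPolynomial.C (t l) * MvPolynomial.X l) f
      = sparse v a + MvPolynomial.map (algebraMap F ℂ) h)
    (R : SmoothFan N) (hR : Principal v R) (b : ℂ[X])
    (hb : Pool.Agent.H628R4.TP.IsLocalBFunction f b) :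
    ∃ P : ℂ[X], algebraMap ℂ[X] (RatFunc ℂ) b * Pool.Agent.W422.GC.topZetaGLocal v R =
      algebraMap ℂ[X] (RatFunc ℂ) P :=
  Pool.Agent.W422.GC.finalLocalC hr v a hv hv0 ha h hh R hR b
    (hf ▸ Pool.Agent.W578.SI.taskI2.2.2 f b c t hc ht hb)

end Pool.Agent.W425.SU
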